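import Pool.Agent.Lib.MP_86fd08_ag.BSD
import Pool.Agent.Lib.MP_86fd08_ag.Uniq

/-! The Boij-Soederberg coefficients of the Betti table of the plane with `b = 1`, `d = 5` are not
unimodal. -/

namespace Pool.Agent.Results.MP_86fd08_ag.NotUnimodal

open VerBS

lemma row_range (t : Fin 3) (i : ℕ) : 0 ≤ row t i ∧ row t i ≤ 2 := by
  fin_cases t <;> simp only [row] <;> split_ifs <;> omega

theorem isBS (k : Type*) [Field k] [CharZero k] :
    IsBS (fun i j => (betti k 1 5 i j : ℚ)) DD ca := by
  refine ⟨?_, ?_, ?_⟩
  · intro t t' h
    have hle : ∀ i, row t i ≤ row t' i := by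
      intro i
      fin_cases t <;> fin_cases t' <;> first
        | exact absurd h (by decide)
        | (simp only [row]; split_ifs <;> omega)
    refine ⟨⟨le_rfl, fun i h1 h2 => ?_⟩, ?_⟩
    · change ((i : ℕ) : ℤ) + row t i ≤ (i : ℕ) + row t' i
      have := hle i
      omega
    · intro heq
      have h1 : ∀ (i : ℕ), i < 19 → row t i = row t' i := by
        intro i hi
        have h2 : (DD t).pure i (i + row t i) = (DD t').pure i (i + row t i) := by rw [heq]
        have h3 := pure_self_pos (DD t) i (show i < (DD t).r + 1 from hi)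
        have h4 : (DD t).deg ⟨i, hi⟩ = i + row t i := rfl
        rw [h4, h2] at h3
        obtain ⟨h5, h6⟩ := pure_ne_zero h3.ne'
        have h7 : (DD t').deg ⟨i, h5⟩ = i + row t' i := rfl
        rw [h7] at h6
        omega
      have h2 := h1 2 (by norm_num)
      have h16 := h1 16 (by norm_num)
      fin_cases t <;> fin_cases t' <;> first
        | exact absurd h (by decide)
        | (simp [row] at h2 h16)
  · intro t
    fin_cases t <;> norm_num [ca]
  · intro i j
    rw [betti_HH]
    by_cases hi : i < 19
    · simp only [pure_DD _ i j hi]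
      have hcase : j - i < 0 ∨ 3 ≤ j - i ∨ j - i = 0 ∨ j - i = 1 ∨ j - i = 2 := by omega
      rcases hcase with h | h | h | h | h
      · rw [HH_out i (j - i) (Or.inl h), Nat.cast_zero, eq_comm]
        refine Finset.sum_eq_zero fun t _ => ?_
        have := row_range t i
        rw [if_neg (by omega), mul_zero]
      · rw [HH_out i (j - i) (Or.inr (Or.inl h)), Nat.cast_zero, eq_comm]
        refine Finset.sum_eq_zero fun t _ => ?_
        have := row_range t i
        rw [if_neg (by omega), mul_zero]
      · rw [h, (rr_col_zero i).1]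
        exact check_zero ⟨i, hi⟩
      · rw [h, HH_col_one i (by omega)]
        exact check_one ⟨i, hi⟩
      · rw [h, HH_col_two i (by omega)]
        exact check_two ⟨i, hi⟩
    · rw [HH_out i (j - i) (Or.inr (Or.inr (by omega))), Nat.cast_zero, eq_comm]
      refine Finset.sum_eq_zero fun t _ => ?_
      rw [pure_DD_big t i j hi, mul_zero]

lemma not_unimodal : ¬ Unimodal ca := by
  rintro ⟨t, h1, h2⟩
  have e0 : ca 0 = 61737175019520000 := rfl
  have e1 : ca 1 = 36584992604160000 := rfl
  have e2 : ca 2 = 61737175019520000 := rfl
  fin_cases t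
  · have := h2 1 2 (by decide) (by decide)
    rw [e1, e2] at this
    norm_num at this
  · have := h1 0 1 (by decide) (by decide)
    rw [e0, e1] at this
    norm_num at this
  · have := h1 0 1 (by decide) (by decide)
    rw [e0, e1] at this
    norm_num at this

/-- The Boij-Soederberg coefficients of the Betti table `β(P^2, 1; 5)` over a field of
characteristic zero are `61737175019520000, 36584992604160000, 61737175019520000`, and no
Boij-Soederberg decomposition of this table has a unimodal sequence of coefficients. -/
theorem result (k : Type*) [Field k] [CharZero k] :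
    (∃ D : Fin 3 → DegSeq, IsBS (fun i j => (betti k 1 5 i j : ℚ)) D
      ![61737175019520000, 36584992604160000, 61737175019520000]) ∧
    ∀ (s : ℕ) (D : Fin s → DegSeq) (a : Fin s → ℚ),
      IsBS (fun i j => (betti k 1 5 i j : ℚ)) D a → ¬ Unimodal a := by
  refine ⟨⟨DD, isBS k⟩, ?_⟩
  intro s D a h hu
  obtain ⟨e, he⟩ := bs_unique s _ D a 3 DD ca h (isBS k)
  subst e
  have : a = ca := by
    funext t
    exact (he t).2
  rw [this] at hu
  exact not_unimodal hu

end Pool.Agent.Results.MP_86fd08_ag.NotUnimodal
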